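import Pool.Agent.H43.UB.UH
import Pool.Agent.H43.UB.UM
import Pool.Agent.H65.UB.Gdf

/-!
# THEOREM M: area estimates for univalent maps and approximate continuity

`bad_le`: `Φ` univalent on the unit disc: the set of `w`, `‖w‖ ≤ t`, with `Φ w ∈ S` has area at most `(K1 / ‖Φ' 0‖) ^ 2` times the area of `S`. Change of variables and Koebe distortion (`chain`).
-/

set_option autoImplicit false

open Filter Topology Metric Set MeasureTheory

namespace Pool.Agent.H31.MMx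

open Pool.Agent.H43.UB

private theorem absdet (a : ℂ) : |((ContinuousLinearMap.toSpanSingleton ℂ a).restrictScalars ℝ : ℂ →L[ℝ] ℂ).det| = ‖a‖ ^ 2 := by
  have h1 : ((ContinuousLinearMap.toSpanSingleton ℂ a).restrictScalars ℝ : ℂ →L[ℝ] ℂ).det = ‖a‖ ^ 2 := by
    simp [ContinuousLinearMap.det, LinearMap.det_restrictScalars, Algebra.norm_complex_eq, Complex.normSq_eq_norm_sq]
  rw [h1, abs_of_nonneg (by positivity)]

/-- the distortion constant -/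
noncomputable def K1 (t : ℝ) : ℝ := Pool.Agent.H80.AJ.KK ^ ⌈2 / (1 - t)⌉₊

theorem K1_pos (t : ℝ) : 0 < K1 t := pow_pos Pool.Agent.H80.AJ.KK_pos _

private theorem bsub {t : ℝ} {y : ℂ} (hy : ‖y‖ ≤ t) : ball y (1 - t) ⊆ ball 0 1 := by
  intro u hu
  rw [mem_ball, dist_eq_norm] at hu
  rw [mem_ball_zero_iff]
  have h2 := norm_add_le (u - y) y
  rw [sub_add_cancel] at h2
  linarith

/-- Koebe distortion on `closedBall 0 t` -/
theorem dist_le {Φ : ℂ → ℂ} (hd : DifferentiableOn ℂ Φ (ball 0 1)) (hi : InjOn Φ (ball 0 1)) {t : ℝ} (ht0 : 0 ≤ t)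
    (ht : t < 1) {w : ℂ} (hw : ‖w‖ ≤ t) : ‖deriv Φ w‖ ≤ K1 t * ‖deriv Φ 0‖ ∧ ‖deriv Φ 0‖ ≤ K1 t * ‖deriv Φ w‖ := by
  have hδ : 0 < 1 - t := by linarith
  have hN : ∀ a b : ℂ, ‖a - b‖ ≤ 1 → ‖a - b‖ ≤ (⌈2 / (1 - t)⌉₊ : ℝ) * ((1 - t) / 2) := by
    intro a b h
    have h3 := Nat.le_ceil (2 / (1 - t))
    calc ‖a - b‖ ≤ 1 := h
      _ = 2 / (1 - t) * ((1 - t) / 2) := by field_simp
      _ ≤ _ := mul_le_mul_of_nonneg_right h3 (by linarith)
  have hseg : ∀ a b : ℂ, ‖a‖ ≤ t → ‖b‖ ≤ t → ∀ v ∈ segment ℝ a b,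
      DifferentiableOn ℂ Φ (ball v (1 - t)) ∧ InjOn Φ (ball v (1 - t)) := by
    intro a b ha hb v hv
    have h4 : v ∈ closedBall (0 : ℂ) t := (convex_closedBall (0 : ℂ) t).segment_subset
      (mem_closedBall_zero_iff.2 ha) (mem_closedBall_zero_iff.2 hb) hv
    have h5 := bsub (mem_closedBall_zero_iff.1 h4)
    exact ⟨hd.mono h5, hi.mono h5⟩
  have h0 : ‖(0 : ℂ)‖ ≤ t := by rw [norm_zero]; exact ht0
  refine ⟨Pool.Agent.H65.UB.chain hδ _ (hN _ _ (by rw [sub_zero]; linarith)) (hseg _ _ hw h0),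
    Pool.Agent.H65.UB.chain hδ _ (hN _ _ (by rw [zero_sub, norm_neg]; linarith)) (hseg _ _ h0 hw)⟩

/-- the image of `closedBall 0 t` -/
theorem img_le {Φ : ℂ → ℂ} (hd : DifferentiableOn ℂ Φ (ball 0 1)) (hi : InjOn Φ (ball 0 1)) {t : ℝ} (ht0 : 0 ≤ t)
    (ht : t < 1) {w w' : ℂ} (hw : ‖w‖ ≤ t) (hw' : ‖w'‖ ≤ t) : ‖Φ w - Φ w'‖ ≤ 2 * K1 t * ‖deriv Φ 0‖ := by
  have h6 := Convex.norm_image_sub_le_of_norm_deriv_le (𝕜 := ℂ) (s := closedBall (0 : ℂ) t) (f := Φ)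
    (C := K1 t * ‖deriv Φ 0‖) (x := w') (y := w)
    (fun y hy => hd.differentiableAt (isOpen_ball.mem_nhds
      (closedBall_subset_ball ht hy))) (fun y hy => (dist_le hd hi ht0 ht (mem_closedBall_zero_iff.1 hy)).1)
    (convex_closedBall _ _) (mem_closedBall_zero_iff.2 hw') (mem_closedBall_zero_iff.2 hw)
  refine h6.trans ?_
  have h7 := norm_sub_le w w'
  have h8 : ‖w - w'‖ ≤ 2 := by linarith
  calc K1 t * ‖deriv Φ 0‖ * ‖w - w'‖ ≤ K1 t * ‖deriv Φ 0‖ * 2 :=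
        mul_le_mul_of_nonneg_left h8 (mul_nonneg (K1_pos t).le (norm_nonneg _))
    _ = _ := by ring

/-- the preimage of a set `S` under `Φ` has small area -/
theorem bad_le {Φ : ℂ → ℂ} (hd : DifferentiableOn ℂ Φ (ball 0 1)) (hi : InjOn Φ (ball 0 1)) {t : ℝ} (ht0 : 0 ≤ t)
    (ht : t < 1) {S : Set ℂ} (hS : MeasurableSet S) :
    volume {w ∈ closedBall (0 : ℂ) t | Φ w ∈ S} * ENNReal.ofReal (‖deriv Φ 0‖ ^ 2) ≤ ENNReal.ofReal (K1 t ^ 2) * volume S := by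
  obtain ⟨A, hA⟩ : ∃ A : Set ℂ, A = {w ∈ closedBall (0 : ℂ) t | Φ w ∈ S} := ⟨_, rfl⟩
  have hsub : A ⊆ ball (0 : ℂ) 1 := fun w hw => by
    rw [hA] at hw
    exact closedBall_subset_ball ht hw.1
  have hAm : MeasurableSet A := by
    have h1 : ContinuousOn Φ (closedBall (0 : ℂ) t) := (hd.mono (closedBall_subset_ball ht)).continuousOn
    rw [hA]
    have h2 : {w ∈ closedBall (0 : ℂ) t | Φ w ∈ S} = Subtype.val '' ((closedBall (0 : ℂ) t).restrict Φ ⁻¹' S) := by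
      ext w
      constructor
      · rintro ⟨h3, h4⟩
        exact ⟨⟨w, h3⟩, h4, rfl⟩
      · rintro ⟨⟨w', h3⟩, h4, rfl⟩
        exact ⟨h3, h4⟩
    rw [h2]
    exact isClosed_closedBall.measurableSet.subtype_image ((continuousOn_iff_continuous_restrict.1 h1).measurable hS)
  have hder : ∀ w ∈ A, HasFDerivWithinAt Φ ((ContinuousLinearMap.toSpanSingleton ℂ (deriv Φ w)).restrictScalars ℝ : ℂ →L[ℝ] ℂ) A w := by
    intro w hw
    have h1 : HasDerivAt Φ (deriv Φ w) w := (hd.differentiableAt (isOpen_ball.mem_nhds (hsub hw))).hasDerivAt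
    exact (h1.hasFDerivAt.restrictScalars ℝ).hasFDerivWithinAt
  have h1 := lintegral_abs_det_fderiv_eq_addHaar_image volume hAm hder (hi.mono hsub)
  have h2 : volume (Φ '' A) ≤ volume S := by
    refine measure_mono ?_
    rintro _ ⟨w, hw, rfl⟩
    rw [hA] at hw
    exact hw.2
  have h3 : volume A * ENNReal.ofReal (‖deriv Φ 0‖ ^ 2) ≤
      ENNReal.ofReal (K1 t ^ 2) * ∫⁻ w in A, ENNReal.ofReal |((ContinuousLinearMap.toSpanSingleton ℂ (deriv Φ w)).restrictScalars ℝ : ℂ →L[ℝ] ℂ).det| := by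
    rw [← lintegral_const_mul' _ _ ENNReal.ofReal_ne_top, mul_comm, ← setLIntegral_const]
    refine setLIntegral_mono' hAm fun w hw => ?_
    rw [absdet, ← ENNReal.ofReal_mul (by positivity), ← mul_pow]
    refine ENNReal.ofReal_le_ofReal (pow_le_pow_left₀ (norm_nonneg _) ?_ 2)
    rw [hA] at hw
    exact (dist_le hd hi ht0 ht (mem_closedBall_zero_iff.1 hw.1)).2
  rw [← hA]
  refine h3.trans (mul_le_mul' le_rfl ?_)
  rw [h1]
  exact h2

end Pool.Agent.H31.MMx
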