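import Pool.Agent.H31.MMx.Bad

/-!
# THEOREM M: the limit of two pass pictures

`Me e` the Moebius map, `Fm e w = (Me e (w ^ 2)) ^ 2`. `core`: univalent `g n` on the unit disc with `‖deriv (g n) 0‖ = 1`, zeros in `closedBall 0 t`, which satisfy the comparison property `Cmp` (GAL), converge along the ultrafilter to a univalent `φ`, and `conj (φ' w) φ' w' F' w conj (F' w')` is real whenever `F w = F w'`, `F' w ≠ 0`, `F' w' ≠ 0`.
-/

set_option autoImplicit false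

open Filter Topology Metric Set MeasureTheory

namespace Pool.Agent.H31.MMx

open Pool.Agent.H43.UB

/-- the Moebius map -/
noncomputable def Me (e x : ℂ) : ℂ := (x + e) / (1 + (starRingEnd ℂ) e * x)

/-- the involution `Me (-e) (- Me e x)` -/
noncomputable def Sm (e x : ℂ) : ℂ := -((1 + e * (starRingEnd ℂ) e) * x + 2 * e) / ((1 + e * (starRingEnd ℂ) e) + 2 * (starRingEnd ℂ) e * x)

/-- the two pass map -/
noncomputable def Fm (e w : ℂ) : ℂ := (Me e (w ^ 2)) ^ 2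

theorem d1_ne {e x : ℂ} (he : ‖e‖ < 1) (hx : ‖x‖ ≤ 1) : 1 + (starRingEnd ℂ) e * x ≠ 0 := by
  intro h
  have h1 : (starRingEnd ℂ) e * x = -1 := by linear_combination h
  have h2 : ‖(starRingEnd ℂ) e * x‖ = 1 := by rw [h1, norm_neg, norm_one]
  rw [norm_mul, RCLike.norm_conj] at h2
  have h3 : ‖e‖ * ‖x‖ ≤ ‖e‖ * 1 := mul_le_mul_of_nonneg_left hx (norm_nonneg _)
  linarith

private theorem ee_eq (e : ℂ) : e * (starRingEnd ℂ) e = ((‖e‖ ^ 2 : ℝ) : ℂ) := by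
  rw [Complex.mul_conj, Complex.normSq_eq_norm_sq]

theorem d2_ne {e x : ℂ} (he : ‖e‖ < 1) (hx : ‖x‖ ≤ 1) : (1 + e * (starRingEnd ℂ) e) + 2 * (starRingEnd ℂ) e * x ≠ 0 := by
  intro h
  have h1 : 2 * (starRingEnd ℂ) e * x = -(1 + e * (starRingEnd ℂ) e) := by linear_combination h
  have h2 : ‖2 * (starRingEnd ℂ) e * x‖ = ‖-(1 + e * (starRingEnd ℂ) e)‖ := by rw [h1]
  rw [norm_neg, ee_eq, norm_mul, norm_mul, RCLike.norm_conj] at h2
  have h3 : ‖(1 + ((‖e‖ ^ 2 : ℝ) : ℂ))‖ = 1 + ‖e‖ ^ 2 := by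
    have h4 : (1 + ((‖e‖ ^ 2 : ℝ) : ℂ)) = ((1 + ‖e‖ ^ 2 : ℝ) : ℂ) := by push_cast; ring
    rw [h4, Complex.norm_real, Real.norm_of_nonneg (by positivity)]
  rw [h3] at h2
  have h5 : ‖(2 : ℂ)‖ = 2 := by simp
  rw [h5] at h2
  have h6 : 2 * ‖e‖ * ‖x‖ ≤ 2 * ‖e‖ * 1 := mul_le_mul_of_nonneg_left hx (by positivity)
  nlinarith [sq_nonneg (1 - ‖e‖), norm_nonneg e]

theorem one_sub_ne {e : ℂ} (he : ‖e‖ < 1) : 1 - e * (starRingEnd ℂ) e ≠ 0 := by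
  rw [ee_eq]
  intro h
  have h1 : ((1 - ‖e‖ ^ 2 : ℝ) : ℂ) = 0 := by push_cast at h ⊢; exact h
  have h2 : 1 - ‖e‖ ^ 2 = 0 := by exact_mod_cast h1
  nlinarith [norm_nonneg e]

theorem me_sm {e x : ℂ} (he : ‖e‖ < 1) (hx : ‖x‖ ≤ 1) : Me e (Sm e x) = - Me e x := by
  have h1 := d1_ne he hx
  have h2 := d2_ne he hx
  have h3 := one_sub_ne he
  have h0 : Sm e x * ((1 + e * (starRingEnd ℂ) e) + 2 * (starRingEnd ℂ) e * x) = -((1 + e * (starRingEnd ℂ) e) * x + 2 * e) := by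
    unfold Sm
    rw [div_mul_cancel₀ _ h2]
  have h4 : 1 + (starRingEnd ℂ) e * Sm e x =
      (1 - e * (starRingEnd ℂ) e) * (1 + (starRingEnd ℂ) e * x) / ((1 + e * (starRingEnd ℂ) e) + 2 * (starRingEnd ℂ) e * x) := by
    rw [eq_div_iff h2]
    linear_combination (starRingEnd ℂ) e * h0
  have h5 : Sm e x + e =
      -((1 - e * (starRingEnd ℂ) e) * (x + e)) / ((1 + e * (starRingEnd ℂ) e) + 2 * (starRingEnd ℂ) e * x) := by
    rw [eq_div_iff h2]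
    linear_combination h0
  unfold Me
  rw [h4, h5, div_div_div_cancel_right₀ h2, ← neg_div, neg_mul_eq_mul_neg, mul_div_mul_left _ _ h3]

theorem me_neg {e x y : ℂ} (he : ‖e‖ < 1) (hx : ‖x‖ ≤ 1) (hy : ‖y‖ ≤ 1) (h : Me e x = - Me e y) : x = Sm e y := by
  have h1 := d1_ne he hx
  have h1' := d1_ne he hy
  have h2 := d2_ne he hy
  unfold Me at h
  unfold Sm
  rw [eq_div_iff h2]
  rw [← neg_div, div_eq_div_iff h1 h1'] at h
  linear_combination h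

theorem me_inj {e x y : ℂ} (he : ‖e‖ < 1) (hx : ‖x‖ ≤ 1) (hy : ‖y‖ ≤ 1) (h : Me e x = Me e y) : x = y := by
  have h1 := d1_ne he hx
  have h1' := d1_ne he hy
  have h3 := one_sub_ne he
  unfold Me at h
  rw [div_eq_div_iff h1 h1'] at h
  have h4 : (1 - e * (starRingEnd ℂ) e) * (x - y) = 0 := by linear_combination h
  rcases mul_eq_zero.1 h4 with h5 | h5
  · exact absurd h5 h3
  · linear_combination h5

theorem me_lt {e x : ℂ} (he : ‖e‖ < 1) (hx : ‖x‖ < 1) : ‖Me e x‖ < 1 := by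
  have h1 := d1_ne he hx.le
  unfold Me
  rw [norm_div, div_lt_one (norm_pos_iff.2 h1)]
  have h2 : ‖x + e‖ ^ 2 < ‖1 + (starRingEnd ℂ) e * x‖ ^ 2 := by
    have h3 : ‖1 + (starRingEnd ℂ) e * x‖ ^ 2 - ‖x + e‖ ^ 2 = (1 - ‖e‖ ^ 2) * (1 - ‖x‖ ^ 2) := by
      rw [← Complex.normSq_eq_norm_sq, ← Complex.normSq_eq_norm_sq, ← Complex.normSq_eq_norm_sq, ← Complex.normSq_eq_norm_sq]
      simp only [Complex.normSq_apply, Complex.add_re, Complex.add_im, Complex.mul_re, Complex.mul_im, Complex.one_re,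
        Complex.one_im, Complex.conj_re, Complex.conj_im]
      ring
    have h4 : 0 < (1 - ‖e‖ ^ 2) * (1 - ‖x‖ ^ 2) := by
      apply mul_pos <;> nlinarith [norm_nonneg e, norm_nonneg x]
    linarith
  exact lt_of_pow_lt_pow_left₀ 2 (norm_nonneg _) h2

private theorem sq_lt {w : ℂ} (hw : ‖w‖ < 1) : ‖w ^ 2‖ < 1 := by
  rw [norm_pow]
  exact pow_lt_one₀ (norm_nonneg _) hw two_ne_zero

theorem me_der {e x : ℂ} (he : ‖e‖ < 1) (hx : ‖x‖ ≤ 1) :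
    HasDerivAt (Me e) ((1 - e * (starRingEnd ℂ) e) / (1 + (starRingEnd ℂ) e * x) ^ 2) x := by
  have h1 := d1_ne he hx
  have h2 : HasDerivAt (fun y : ℂ => y + e) 1 x := (hasDerivAt_id x).add_const e
  have h3 : HasDerivAt (fun y : ℂ => 1 + (starRingEnd ℂ) e * y) ((starRingEnd ℂ) e) x := by
    have := ((hasDerivAt_id x).const_mul ((starRingEnd ℂ) e)).const_add 1
    simpa using this
  have h4 := h2.div h3 h1
  have h5 : (1 * (1 + (starRingEnd ℂ) e * x) - (x + e) * (starRingEnd ℂ) e) / (1 + (starRingEnd ℂ) e * x) ^ 2 =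
      (1 - e * (starRingEnd ℂ) e) / (1 + (starRingEnd ℂ) e * x) ^ 2 := by
    congr 1
    ring
  rw [← h5]
  exact h4

theorem fm_der {e w : ℂ} (he : ‖e‖ < 1) (hw : ‖w‖ < 1) :
    HasDerivAt (Fm e) (2 * Me e (w ^ 2) * ((1 - e * (starRingEnd ℂ) e) / (1 + (starRingEnd ℂ) e * w ^ 2) ^ 2 * (2 * w))) w := by
  have h1 : HasDerivAt (fun v : ℂ => v ^ 2) (2 * w) w := by
    have := hasDerivAt_pow 2 w
    simpa using this
  have h2 := (me_der he (sq_lt hw).le).comp w h1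
  have h3 := h2.pow 2
  have h4 : HasDerivAt (Fm e) (((2 : ℕ) : ℂ) * (Me e ∘ fun v : ℂ => v ^ 2) w ^ (2 - 1) * ((1 - e * (starRingEnd ℂ) e) / (1 + (starRingEnd ℂ) e * w ^ 2) ^ 2 * (2 * w))) w := h3
  have h5 : ((2 : ℕ) : ℂ) * (Me e ∘ fun v : ℂ => v ^ 2) w ^ (2 - 1) * ((1 - e * (starRingEnd ℂ) e) / (1 + (starRingEnd ℂ) e * w ^ 2) ^ 2 * (2 * w)) =
      2 * Me e (w ^ 2) * ((1 - e * (starRingEnd ℂ) e) / (1 + (starRingEnd ℂ) e * w ^ 2) ^ 2 * (2 * w)) := by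
    show ((2 : ℕ) : ℂ) * Me e (w ^ 2) ^ (2 - 1) * _ = _
    norm_num
  rw [← h5]
  exact h4

theorem fm_ne {e w : ℂ} (he : ‖e‖ < 1) (hw : ‖w‖ < 1) : deriv (Fm e) w ≠ 0 ↔ w ≠ 0 ∧ w ^ 2 + e ≠ 0 := by
  have h1 := d1_ne he (sq_lt hw).le
  have h3 := one_sub_ne he
  rw [(fm_der he hw).deriv]
  unfold Me
  constructor
  · intro h
    constructor
    · rintro rfl
      apply h
      ring
    · intro h4
      apply h
      rw [h4]
      simp
  · rintro ⟨h4, h5⟩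
    have h6 : (w ^ 2 + e) / (1 + (starRingEnd ℂ) e * w ^ 2) ≠ 0 := div_ne_zero h5 h1
    have h7 : (1 - e * (starRingEnd ℂ) e) / (1 + (starRingEnd ℂ) e * w ^ 2) ^ 2 ≠ 0 := div_ne_zero h3 (pow_ne_zero 2 h1)
    exact mul_ne_zero (mul_ne_zero two_ne_zero h6) (mul_ne_zero h7 (mul_ne_zero two_ne_zero h4))

theorem fm_eq {e w w' : ℂ} (he : ‖e‖ < 1) (hw : ‖w‖ < 1) (hw' : ‖w'‖ < 1) (h : Fm e w = Fm e w') :
    w' = w ∨ w' = -w ∨ w' ^ 2 = Sm e (w ^ 2) := by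
  unfold Fm at h
  rcases sq_eq_sq_iff_eq_or_eq_neg.1 h with h1 | h1
  · have h2 := me_inj he (sq_lt hw).le (sq_lt hw').le h1
    rcases sq_eq_sq_iff_eq_or_eq_neg.1 h2.symm with h3 | h3
    · exact Or.inl h3
    · exact Or.inr (Or.inl h3)
  · refine Or.inr (Or.inr (me_neg he (sq_lt hw').le (sq_lt hw).le ?_))
    rw [h1, neg_neg]

/-- the local deck map at a pair `w, w'` with `w' ^ 2 = Sm e (w ^ 2)` -/
noncomputable def Tm (w' e u : ℂ) : ℂ := w' * (Sm e (u ^ 2) / w' ^ 2) ^ ((1 : ℂ) / 2)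

private theorem sqrt_sq {z : ℂ} : (z ^ ((1 : ℂ) / 2)) ^ 2 = z := by
  have h := Complex.cpow_nat_inv_pow z (n := 2) two_ne_zero
  have h1 : ((2 : ℕ) : ℂ)⁻¹ = (1 : ℂ) / 2 := by norm_num
  rwa [h1] at h

theorem tm_sq {w' e u : ℂ} (hw : w' ≠ 0) : Tm w' e u ^ 2 = Sm e (u ^ 2) := by
  unfold Tm
  rw [mul_pow, sqrt_sq]
  field_simp

private theorem slit_of {z : ℂ} (h : ‖z - 1‖ < 1) : z ∈ Complex.slitPlane := by
  rw [Complex.mem_slitPlane_iff]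
  left
  have h1 := Complex.abs_re_le_norm (z - 1)
  rw [Complex.sub_re, Complex.one_re] at h1
  have h2 := abs_le.1 h1
  linarith [h2.1]

theorem sm_cont {ε w : ℂ} (he : ‖ε‖ < 1) (hw : ‖w‖ < 1) :
    ContinuousAt (fun p : ℂ × ℂ => Sm p.1 (p.2 ^ 2)) (ε, w) := by
  have h2 := d2_ne he (sq_lt hw).le
  unfold Sm
  have hc : Continuous fun p : ℂ × ℂ => (starRingEnd ℂ) p.1 := Complex.continuous_conj.comp continuous_fst
  refine ContinuousAt.div ?_ ?_ h2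
  · have : Continuous fun p : ℂ × ℂ => -((1 + p.1 * (starRingEnd ℂ) p.1) * p.2 ^ 2 + 2 * p.1) :=
      (((continuous_const.add (continuous_fst.mul hc)).mul (continuous_snd.pow 2)).add (continuous_const.mul continuous_fst)).neg
    exact this.continuousAt
  · have : Continuous fun p : ℂ × ℂ => (1 + p.1 * (starRingEnd ℂ) p.1) + 2 * (starRingEnd ℂ) p.1 * p.2 ^ 2 :=
      (continuous_const.add (continuous_fst.mul hc)).add ((continuous_const.mul hc).mul (continuous_snd.pow 2))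
    exact this.continuousAt

theorem sm_diff {e u : ℂ} (he : ‖e‖ < 1) (hu : ‖u‖ < 1) : DifferentiableAt ℂ (fun v : ℂ => Sm e (v ^ 2)) u := by
  have h2 := d2_ne he (sq_lt hu).le
  unfold Sm
  refine DifferentiableAt.div ?_ ?_ h2
  · fun_prop
  · fun_prop

/-- the local deck maps near a pair: uniform statement -/
theorem tm_loc {ε w w' : ℂ} (he : ‖ε‖ < 1) (hw : ‖w‖ < 1) (hw' : ‖w'‖ < 1) (hw0 : w' ≠ 0) (hne : w ^ 2 + ε ≠ 0)
    (hS : w' ^ 2 = Sm ε (w ^ 2)) :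
    ∃ r s : ℝ, 0 < r ∧ s < 1 ∧ ball w r ⊆ ball (0 : ℂ) 1 ∧ (∀ᶠ e in 𝓝 ε, ‖e‖ < 1 ∧ DifferentiableOn ℂ (Tm w' e) (ball w r) ∧
      ∀ u ∈ ball w r, ‖Tm w' e u‖ ≤ s ∧ Fm e (Tm w' e u) = Fm e u ∧ Tm w' e u ≠ 0 ∧ Tm w' e u ^ 2 + e ≠ 0) ∧
      (∀ u ∈ ball w r, Tendsto (fun e => Tm w' e u) (𝓝 ε) (𝓝 (Tm w' ε u))) ∧ Tm w' ε w = w' := by
  -- the size of the quotient
  obtain ⟨s, hs1, hs2⟩ : ∃ s : ℝ, ‖w'‖ < s ∧ s < 1 := exists_between hw'
  have hw'p : 0 < ‖w'‖ := norm_pos_iff.2 hw0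
  have hs0 : 0 < s := hw'p.trans hs1
  have hq : ContinuousAt (fun p : ℂ × ℂ => Sm p.1 (p.2 ^ 2) / w' ^ 2) (ε, w) := (sm_cont he hw).div_const _
  have hq1 : Sm ε (w ^ 2) / w' ^ 2 = 1 := by rw [← hS, div_self (pow_ne_zero 2 hw0)]
  have hev1 : ∀ᶠ p : ℂ × ℂ in 𝓝 (ε, w), ‖Sm p.1 (p.2 ^ 2) / w' ^ 2 - 1‖ < 1 := by
    have h1 : ContinuousAt (fun p : ℂ × ℂ => ‖Sm p.1 (p.2 ^ 2) / w' ^ 2 - 1‖) (ε, w) := (hq.sub continuousAt_const).norm
    refine h1.eventually_lt_const ?_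
    show ‖Sm ε (w ^ 2) / w' ^ 2 - 1‖ < 1
    rw [hq1, sub_self, norm_zero]
    exact one_pos
  have hev2 : ∀ᶠ p : ℂ × ℂ in 𝓝 (ε, w), ‖Sm p.1 (p.2 ^ 2)‖ < s ^ 2 := by
    have h1 : ContinuousAt (fun p : ℂ × ℂ => ‖Sm p.1 (p.2 ^ 2)‖) (ε, w) := (sm_cont he hw).norm
    refine h1.eventually_lt_const ?_
    show ‖Sm ε (w ^ 2)‖ < s ^ 2
    rw [← hS, norm_pow]
    exact pow_lt_pow_left₀ hs1 (norm_nonneg _) two_ne_zero
  have hev3 : ∀ᶠ p : ℂ × ℂ in 𝓝 (ε, w), p.2 ^ 2 + p.1 ≠ 0 := by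
    have h1 : ContinuousAt (fun p : ℂ × ℂ => p.2 ^ 2 + p.1) (ε, w) := by
      have : Continuous fun p : ℂ × ℂ => p.2 ^ 2 + p.1 := (continuous_snd.pow 2).add continuous_fst
      exact this.continuousAt
    exact h1.eventually_ne hne
  have hev4 : ∀ᶠ p : ℂ × ℂ in 𝓝 (ε, w), ‖p.1‖ < 1 ∧ ‖p.2‖ < 1 := by
    have h1 : ContinuousAt (fun p : ℂ × ℂ => ‖p.1‖) (ε, w) := continuous_fst.norm.continuousAt
    have h2 : ContinuousAt (fun p : ℂ × ℂ => ‖p.2‖) (ε, w) := continuous_snd.norm.continuousAt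
    exact (h1.eventually_lt_const he).and (h2.eventually_lt_const hw)
  have hev := (hev1.and (hev2.and (hev3.and hev4)))
  rw [nhds_prod_eq] at hev
  obtain ⟨pa, hpa, pb, hpb, hab⟩ := eventually_prod_iff.1 hev
  obtain ⟨r, hr, hrb⟩ := Metric.eventually_nhds_iff_ball.1 hpb
  have hε : pa ε := hpa.self_of_nhds
  refine ⟨r, s, hr, hs2, ?_, ?_, ?_, ?_⟩
  · intro u hu
    exact mem_ball_zero_iff.2 (hab hε (hrb u hu)).2.2.2.2
  · filter_upwards [hpa] with e hpe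
    have he1 : ‖e‖ < 1 := (hab hpe (hrb w (mem_ball_self hr))).2.2.2.1
    refine ⟨he1, ?_, ?_⟩
    · intro u hu
      obtain ⟨h1, -, -, -, h5⟩ := hab hpe (hrb u hu)
      refine DifferentiableAt.differentiableWithinAt ?_
      unfold Tm
      refine DifferentiableAt.const_mul ?_ _
      exact ((sm_diff he1 h5).div_const _).cpow_const (slit_of h1)
    · intro u hu
      obtain ⟨h1, h2, h3, -, h5⟩ := hab hpe (hrb u hu)
      have h6 := tm_sq (e := e) (u := u) hw0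
      have h7 : Me e (Tm w' e u ^ 2) = - Me e (u ^ 2) := by rw [h6, me_sm he1 (sq_lt h5).le]
      refine ⟨?_, ?_, ?_, ?_⟩
      · have h8 : ‖Tm w' e u‖ ^ 2 ≤ s ^ 2 := by
          rw [← norm_pow, h6]
          exact h2.le
        exact (pow_le_pow_iff_left₀ (norm_nonneg _) hs0.le two_ne_zero).1 h8
      · unfold Fm
        rw [h7]
        ring
      · intro h8
        rw [h8, zero_pow two_ne_zero] at h6
        simp only at h1
        rw [← h6, zero_div, zero_sub, norm_neg, norm_one] at h1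
        exact lt_irrefl _ h1
      · intro h8
        have h9 : Me e (Tm w' e u ^ 2) = 0 := by
          unfold Me
          rw [h8, zero_div]
        rw [h7, neg_eq_zero] at h9
        unfold Me at h9
        rcases div_eq_zero_iff.1 h9 with h10 | h10
        · exact h3 h10
        · exact d1_ne he1 (sq_lt h5).le h10
  · intro u hu
    obtain ⟨h1, -, -, -, h5⟩ := hab hε (hrb u hu)
    have h2 : ContinuousAt (fun e : ℂ => Sm e (u ^ 2)) ε :=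
      ContinuousAt.comp (f := fun e : ℂ => (e, u)) (g := fun p : ℂ × ℂ => Sm p.1 (p.2 ^ 2)) (sm_cont he h5)
        (continuous_id.prodMk continuous_const).continuousAt
    have h3 : ContinuousAt (fun e : ℂ => Tm w' e u) ε := by
      unfold Tm
      refine ContinuousAt.mul continuousAt_const ?_
      exact ContinuousAt.cpow (h2.div_const _) continuousAt_const (slit_of h1)
    exact h3
  · unfold Tm
    rw [hq1, Complex.one_cpow, mul_one]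

/-- the comparison property (GAL) of the normalised branches `g n`: `t ↦ e n` -/
def Cmp (𝒰 : Ultrafilter ℕ) (e : ℕ → ℂ) (g : ℕ → ℂ → ℂ) : Prop :=
  ∀ (w : ℂ) (r s : ℝ) (τ : ℕ → ℂ → ℂ) (τ0 φ : ℂ → ℂ), 0 < r → s < 1 → ball w r ⊆ ball (0 : ℂ) 1 → (∀ u ∈ ball w r, ‖u‖ ≤ s) →
    (∀ᶠ n in (𝒰 : Filter ℕ), DifferentiableOn ℂ (τ n) (ball w r) ∧ ∀ u ∈ ball w r, ‖τ n u‖ ≤ s ∧ Fm (e n) (τ n u) = Fm (e n) u ∧
      deriv (Fm (e n)) (τ n u) ≠ 0) →
    TendstoLocallyUniformlyOn g φ (𝒰 : Filter ℕ) (ball 0 1) → TendstoLocallyUniformlyOn τ τ0 (𝒰 : Filter ℕ) (ball w r) →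
    ∀ u ∈ ball w r, (starRingEnd ℂ) (deriv φ u) * deriv (φ ∘ τ0) u = (starRingEnd ℂ) (deriv (φ ∘ τ0) u) * deriv φ u

private theorem pt_of {𝒰 : Ultrafilter ℕ} {g : ℕ → ℂ → ℂ} {φ : ℂ → ℂ} {S : Set ℂ}
    (h : TendstoLocallyUniformlyOn g φ (𝒰 : Filter ℕ) S) {u : ℂ} (hu : u ∈ S) : Tendsto (fun n => g n u) (𝒰 : Filter ℕ) (𝓝 (φ u)) :=
  h.tendsto_at hu

/-- the limit of two pass pictures -/
theorem core (𝒰 : Ultrafilter ℕ) {t : ℝ} (ht0 : 0 ≤ t) (ht : t < 1) {g : ℕ → ℂ → ℂ} {e w0 : ℕ → ℂ}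
    (hd : ∀ᶠ n in (𝒰 : Filter ℕ), DifferentiableOn ℂ (g n) (ball 0 1)) (hi : ∀ᶠ n in (𝒰 : Filter ℕ), InjOn (g n) (ball 0 1))
    (h1 : ∀ᶠ n in (𝒰 : Filter ℕ), ‖deriv (g n) 0‖ = 1) (hw : ∀ᶠ n in (𝒰 : Filter ℕ), ‖w0 n‖ ≤ t)
    (h0 : ∀ᶠ n in (𝒰 : Filter ℕ), g n (w0 n) = 0) (he : ∀ᶠ n in (𝒰 : Filter ℕ), ‖e n‖ ≤ t) (hc : Cmp 𝒰 e g) :
    ∃ (φ : ℂ → ℂ) (ε : ℂ), DifferentiableOn ℂ φ (ball 0 1) ∧ InjOn φ (ball 0 1) ∧ ‖ε‖ ≤ t ∧
      ∀ w w' : ℂ, ‖w‖ < 1 → ‖w'‖ < 1 → Fm ε w = Fm ε w' → deriv (Fm ε) w ≠ 0 → deriv (Fm ε) w' ≠ 0 →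
        (starRingEnd ℂ) (deriv φ w) * deriv (Fm ε) w * (deriv φ w' * (starRingEnd ℂ) (deriv (Fm ε) w')) =
          (starRingEnd ℂ) (deriv φ w') * deriv (Fm ε) w' * (deriv φ w * (starRingEnd ℂ) (deriv (Fm ε) w)) := by
  -- the limit of the branches
  obtain ⟨φ, φd, φt⟩ := um 𝒰 isOpen_ball hd (fun u hu => by
    have hu1 := mem_ball_zero_iff.1 hu
    obtain ⟨t', ht'⟩ : ∃ t' : ℝ, t' = max t ((1 + ‖u‖) / 2) := ⟨_, rfl⟩
    have ht1 : t' < 1 := by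
      rw [ht']
      exact max_lt ht (by linarith)
    have htt : t ≤ t' := by rw [ht']; exact le_max_left _ _
    have hsub : ball u ((1 - ‖u‖) / 2) ⊆ ball (0 : ℂ) 1 := by
      intro y hy
      rw [mem_ball, dist_eq_norm] at hy
      rw [mem_ball_zero_iff]
      have h2 := norm_add_le (y - u) u
      rw [sub_add_cancel] at h2
      linarith
    refine ⟨(1 - ‖u‖) / 2, 2 * K1 t' * 1, by linarith, hsub, ?_⟩
    filter_upwards [hd, hi, h1, hw, h0] with n k1 k2 k3 k4 k5 v hv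
    have h2 : ‖v‖ ≤ t' := by
      rw [mem_ball, dist_eq_norm] at hv
      have h5 := norm_add_le (v - u) u
      rw [sub_add_cancel] at h5
      have h6 : (1 + ‖u‖) / 2 ≤ t' := by
        rw [ht']
        exact le_max_right _ _
      linarith
    have h3 := img_le k1 k2 (ht0.trans htt) ht1 h2 (k4.trans htt)
    rwa [k5, sub_zero, k3] at h3)
  have φi : InjOn φ (ball 0 1) := by
    refine uh_inj 𝒰 isOpen_ball (convex_ball (0 : ℂ) 1).isPreconnected hd φt hi ⟨0, mem_ball_self one_pos, ?_⟩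
    have h2 : Tendsto (fun n => ‖deriv (g n) 0‖) (𝒰 : Filter ℕ) (𝓝 ‖deriv φ 0‖) :=
      ((φt.deriv hd isOpen_ball).tendsto_at (mem_ball_self one_pos)).norm
    have h3 : Tendsto (fun n => ‖deriv (g n) 0‖) (𝒰 : Filter ℕ) (𝓝 1) := by
      refine Tendsto.congr' ?_ tendsto_const_nhds
      filter_upwards [h1] with k hk
      exact hk.symm
    rw [← norm_ne_zero_iff, tendsto_nhds_unique h2 h3]
    exact one_ne_zero
  obtain ⟨ε, hε, hεt⟩ := ul_ex 𝒰 he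
  have hε1 : ‖ε‖ < 1 := hεt.trans_lt ht
  have he1 : ∀ᶠ n in (𝒰 : Filter ℕ), ‖e n‖ < 1 := he.mono fun n hn => hn.trans_lt ht
  refine ⟨φ, ε, φd, φi, hεt, ?_⟩
  -- a family of local deck maps gives the identity
  have key : ∀ (w w' : ℂ) (r s : ℝ) (τ : ℕ → ℂ → ℂ) (τ0 : ℂ → ℂ), ‖w‖ < 1 → ‖w'‖ < 1 → deriv (Fm ε) w ≠ 0 → deriv (Fm ε) w' ≠ 0 →
      0 < r → s < 1 → ball w r ⊆ ball (0 : ℂ) 1 → (∀ u ∈ ball w r, ‖u‖ ≤ s) →
      (∀ᶠ n in (𝒰 : Filter ℕ), DifferentiableOn ℂ (τ n) (ball w r) ∧ ∀ u ∈ ball w r, ‖τ n u‖ ≤ s ∧ Fm (e n) (τ n u) = Fm (e n) u ∧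
        deriv (Fm (e n)) (τ n u) ≠ 0) → TendstoLocallyUniformlyOn τ τ0 (𝒰 : Filter ℕ) (ball w r) → DifferentiableOn ℂ τ0 (ball w r) →
      (∀ u ∈ ball w r, Fm ε (τ0 u) = Fm ε u) → τ0 w = w' →
      (starRingEnd ℂ) (deriv φ w) * deriv (Fm ε) w * (deriv φ w' * (starRingEnd ℂ) (deriv (Fm ε) w')) =
          (starRingEnd ℂ) (deriv φ w') * deriv (Fm ε) w' * (deriv φ w * (starRingEnd ℂ) (deriv (Fm ε) w)) := by
    intro w w' r s τ τ0 hw1 hw1' hF hF' hr hs hsub hus hτ hτt hτd hτF hτw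
    have h2 := hc w r s τ τ0 φ hr hs hsub hus hτ φt hτt w (mem_ball_self hr)
    have h3 : HasDerivAt τ0 (deriv τ0 w) w := (hτd.differentiableAt (isOpen_ball.mem_nhds (mem_ball_self hr))).hasDerivAt
    have h4 : HasDerivAt φ (deriv φ w') (τ0 w) := by
      rw [hτw]
      exact (φd.differentiableAt (isOpen_ball.mem_nhds (mem_ball_zero_iff.2 hw1'))).hasDerivAt
    have h5 : deriv (φ ∘ τ0) w = deriv φ w' * deriv τ0 w := (h4.comp w h3).deriv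
    have h6 : HasDerivAt (Fm ε) (deriv (Fm ε) w') (τ0 w) := by
      rw [hτw]
      exact (fm_der hε1 hw1').differentiableAt.hasDerivAt
    have h7 : deriv (Fm ε) w = deriv (Fm ε) w' * deriv τ0 w := by
      have h8 : (Fm ε ∘ τ0) =ᶠ[𝓝 w] Fm ε := by
        filter_upwards [isOpen_ball.mem_nhds (mem_ball_self hr)] with u hu
        exact hτF u hu
      rw [← h8.deriv_eq]
      exact (h6.comp w h3).deriv
    rw [h5] at h2
    rw [h7]
    have h9 : (starRingEnd ℂ) (deriv φ w) * (deriv φ w' * deriv τ0 w) = (starRingEnd ℂ) (deriv φ w') * (starRingEnd ℂ) (deriv τ0 w) * deriv φ w := by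
      rw [map_mul] at h2
      exact h2
    rw [map_mul]
    linear_combination (deriv (Fm ε) w' * (starRingEnd ℂ) (deriv (Fm ε) w')) * h9
  intro w w' hw1 hw1' hFF hF hF'
  have hn1 := (fm_ne hε1 hw1).1 hF
  have hn1' := (fm_ne hε1 hw1').1 hF'
  rcases fm_eq hε1 hw1 hw1' hFF with h2 | h2 | h2
  · subst h2
    ring
  · -- the half turn
    have hneg : ∀ (e' u : ℂ), Fm e' (-u) = Fm e' u := by
      intro e' u
      unfold Fm
      rw [neg_sq]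
    obtain ⟨r, hr, hr2⟩ : ∃ r : ℝ, 0 < r ∧ ∀ u ∈ ball w r, ‖u‖ ≤ (1 + ‖w‖) / 2 ∧ u ≠ 0 := by
      have k1 : ∀ᶠ u in 𝓝 w, ‖u‖ < (1 + ‖w‖) / 2 := by
        refine continuous_norm.continuousAt.eventually_lt_const ?_
        linarith
      obtain ⟨r, hr, hr2⟩ := Metric.eventually_nhds_iff_ball.1 (k1.and (continuousAt_id.eventually_ne hn1.1))
      exact ⟨r, hr, fun u hu => ⟨(hr2 u hu).1.le, (hr2 u hu).2⟩⟩
    -- shrink: `u ^ 2 + e n ≠ 0`
    have k2 : ∀ᶠ p : ℂ × ℂ in 𝓝 (ε, w), p.2 ^ 2 + p.1 ≠ 0 := by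
      have k3 : ContinuousAt (fun p : ℂ × ℂ => p.2 ^ 2 + p.1) (ε, w) := by
        have : Continuous fun p : ℂ × ℂ => p.2 ^ 2 + p.1 := (continuous_snd.pow 2).add continuous_fst
        exact this.continuousAt
      exact k3.eventually_ne hn1.2
    rw [nhds_prod_eq] at k2
    obtain ⟨pa, hpa, pb, hpb, hab⟩ := eventually_prod_iff.1 k2
    obtain ⟨r', hr', hrb⟩ := Metric.eventually_nhds_iff_ball.1 hpb
    obtain ⟨q, hq⟩ : ∃ q : ℝ, q = min r r' := ⟨_, rfl⟩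
    have hq0 : 0 < q := by rw [hq]; exact lt_min hr hr'
    have hqr : ball w q ⊆ ball w r := ball_subset_ball (by rw [hq]; exact min_le_left _ _)
    have hqr' : ball w q ⊆ ball w r' := ball_subset_ball (by rw [hq]; exact min_le_right _ _)
    have hs : (1 + ‖w‖) / 2 < 1 := by linarith
    refine key w w' q ((1 + ‖w‖) / 2) (fun _ u => -u) (fun u => -u) hw1 hw1' hF hF' hq0 hs ?_ ?_ ?_ ?_ ?_ ?_ h2.symm
    · intro u hu
      exact mem_ball_zero_iff.2 ((hr2 u (hqr hu)).1.trans_lt hs)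
    · intro u hu
      exact (hr2 u (hqr hu)).1
    · filter_upwards [he1, hε.eventually hpa] with n hn1 hn2
      refine ⟨differentiable_neg.differentiableOn, fun u hu => ?_⟩
      have h3 := hr2 u (hqr hu)
      refine ⟨by rw [norm_neg]; exact h3.1, hneg _ _, ?_⟩
      rw [fm_ne hn1 (by rw [norm_neg]; exact h3.1.trans_lt hs)]
      refine ⟨neg_ne_zero.2 h3.2, ?_⟩
      rw [neg_sq]
      exact hab hn2 (hrb u (hqr' hu))
    · refine TendstoUniformlyOn.tendstoLocallyUniformlyOn ?_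
      rw [Metric.tendstoUniformlyOn_iff]
      intro η hη
      exact Eventually.of_forall fun n u hu => by
        rw [dist_self]
        exact hη
    · exact differentiable_neg.differentiableOn
    · intro u hu
      exact hneg _ _
  · -- the second deck map
    obtain ⟨r, s, hr, hs, hsub, hev, hpt, hTw⟩ := tm_loc hε1 hw1 hw1' hn1'.1 hn1.2 h2
    obtain ⟨q, hq0, hqr, s', hs', hqs⟩ : ∃ q : ℝ, 0 < q ∧ ball w q ⊆ ball w r ∧ ∃ s' : ℝ, s' < 1 ∧ ∀ u ∈ ball w q, ‖u‖ ≤ s' := by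
      have k1 : ∀ᶠ u in 𝓝 w, ‖u‖ < (1 + ‖w‖) / 2 := by
        refine continuous_norm.continuousAt.eventually_lt_const ?_
        linarith
      obtain ⟨r1, hr1, hr2⟩ := Metric.eventually_nhds_iff_ball.1 k1
      exact ⟨min r r1, lt_min hr hr1, ball_subset_ball (min_le_left _ _), (1 + ‖w‖) / 2, by linarith,
        fun u hu => (hr2 u (ball_subset_ball (min_le_right _ _) hu)).le⟩
    have hτ : ∀ᶠ n in (𝒰 : Filter ℕ), DifferentiableOn ℂ (Tm w' (e n)) (ball w q) ∧ ∀ u ∈ ball w q, ‖Tm w' (e n) u‖ ≤ max s s' ∧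
        Fm (e n) (Tm w' (e n) u) = Fm (e n) u ∧ deriv (Fm (e n)) (Tm w' (e n) u) ≠ 0 := by
      filter_upwards [hε.eventually hev] with n hn
      obtain ⟨k1, k2, k3⟩ := hn
      refine ⟨k2.mono hqr, fun u hu => ?_⟩
      obtain ⟨k4, k5, k6, k7⟩ := k3 u (hqr hu)
      exact ⟨k4.trans (le_max_left _ _), k5, (fm_ne k1 (k4.trans_lt hs)).2 ⟨k6, k7⟩⟩
    obtain ⟨τ0, τd, τt⟩ := um 𝒰 (S := ball w q) isOpen_ball (g := fun n => Tm w' (e n)) (hτ.mono fun n hn => hn.1) (fun u hu => by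
      obtain ⟨ρ, hρ, hρs⟩ := Metric.isOpen_iff.1 isOpen_ball u hu
      refine ⟨ρ, max s s', hρ, hρs, ?_⟩
      filter_upwards [hτ] with n hn v hv
      exact (hn.2 v (hρs hv)).1)
    have hτ0 : ∀ u ∈ ball w q, τ0 u = Tm w' ε u := by
      intro u hu
      exact tendsto_nhds_unique (pt_of τt hu) ((hpt u (hqr hu)).comp hε)
    have hself := hev.self_of_nhds
    refine key w w' q (max s s') (fun n => Tm w' (e n)) τ0 hw1 hw1' hF hF' hq0 (max_lt hs hs') (hqr.trans hsub) ?_ hτ τt τd ?_ ?_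
    · intro u hu
      exact (hqs u hu).trans (le_max_right _ _)
    · intro u hu
      rw [hτ0 u hu]
      exact (hself.2.2 u (hqr hu)).2.1
    · rw [hτ0 w (mem_ball_self hq0), hTw]

end Pool.Agent.H31.MMx
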