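import Pool.Agent.H31.MMx.Lim
import Pool.Agent.H81.MM.Two

/-!
# THEOREM M: the two pass lemma (Julia set not the sphere)

`law`: `two_pass` (H81/MM/Two). `two_ps`: two pass pictures at the points of `E` are not small.
-/

set_option autoImplicit false

open Filter Topology Metric Set MeasureTheory

namespace Pool.Agent.H31.MMx

open Pool.Agent.H56.UD Pool.Agent.H43.UB

theorem law {t : ℝ} (ht : t < 1) : Law t := by
  intro φ ε hd hi hε h
  have hε1 : ‖ε‖ < 1 := hε.trans_lt ht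
  have hF : Pool.H81.MM.pass ε 2 2 = Fm ε := by
    funext w
    rfl
  refine Pool.H81.MM.two_pass (lb := 2) (lc := 2) le_rfl le_rfl hε1 hd (fun w hw => uh_der isOpen_ball hd hi hw) ?_
  rw [hF]
  intro w hw w' hw' h1 h2 h3
  exact h w w' (mem_ball_zero_iff.1 hw) (mem_ball_zero_iff.1 hw') h1 h2 h3

/-- two pass pictures at typical points are not small -/
theorem two_ps {f : ℂ → ℂ} {U J P Cr E : Set ℂ} {δ b0 t : ℝ} {η : ℂ → ℂ → ℂ} {ρ : ℝ} {X hh μ : ℂ → ℂ}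
    (h : PS f U J P Cr δ η ρ) (hX : FX f U J E δ X hh μ b0) (ht0 : 0 ≤ t) (ht : t < 1) :
    ∃ a : ℝ, 0 < a ∧ ∀ (z : ℂ) (k : ℕ) (Φ G : ℂ → ℂ) (e w0 : ℂ), z ∈ E → TP f U J δ t z k Φ G e w0 → a ≤ ‖deriv Φ 0‖ :=
  tp_ps h hX ht0 ht (law ht)

end Pool.Agent.H31.MMx
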