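import Pool.Agent.H31.MMx.Law
import Pool.Agent.H66.SP.LA_Gc

/-!
# THEOREM M: two pass pictures at typical points are not small (all Julia sets: PG, FG of H66/SP/Defs)

`cmp_pg`: sequences of two pass pictures have the comparison property (`gc`, H66/SP/LA_Gc). `two_pg`: the two pass pictures at the points of `E` have `‖deriv Φ 0‖ ≥ a > 0`.
-/

set_option autoImplicit false

open Filter Topology Metric Set MeasureTheory

namespace Pool.Agent.H31.MMx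

open Pool.Agent.H66.SP (PG FG)
open Pool.Agent.H56.UD (dm)
open Pool.Agent.H43.UB (um uh_inj uh_der)

variable {f : ℂ → ℂ} {U J P Cr E : Set ℂ} {δ b0 t : ℝ} {η : ℂ → ℂ → ℂ} {ρ : ℝ} {X hh μ : ℂ → ℂ}

private theorem dm_it (hU : IsOpen U) (hfd : DifferentiableOn ℂ f U) {k : ℕ} {z : ℂ} (hz : ∀ j < k, f^[j] z ∈ U) : DifferentiableAt ℂ (f^[k]) z := by
  induction k with
  | zero => exact differentiableAt_id
  | succ k ih =>
    rw [Function.iterate_succ']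
    refine DifferentiableAt.comp z ?_ (ih fun j hj => hz j (by omega))
    exact hfd.differentiableAt (hU.mem_nhds (hz k (by omega)))

/-- the derivative of the iterate does not vanish off the critical points of the picture -/
private theorem it_ne (h : PG f U J P Cr δ η ρ) (ht : t < 1) {z : ℂ} {k : ℕ} {Φ G : ℂ → ℂ} {e w0 : ℂ} (hT : TP f U J δ t z k Φ G e w0)
    {v : ℂ} (hv : ‖v‖ < 1) (hne : deriv (Fm e) v ≠ 0) : deriv (f^[k]) (Φ v) ≠ 0 := by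
  have he : ‖e‖ < 1 := hT.et.trans_lt ht
  have hvb : v ∈ ball (0 : ℂ) 1 := mem_ball_zero_iff.2 hv
  have h1 : HasDerivAt Φ (deriv Φ v) v := (hT.dΦ.differentiableAt (isOpen_ball.mem_nhds hvb)).hasDerivAt
  have h2 : HasDerivAt (f^[k]) (deriv (f^[k]) (Φ v)) (Φ v) := (dm_it h.Uo h.fd (hT.mΦ v hvb).1).hasDerivAt
  have hFb : Fm e v ∈ ball (0 : ℂ) 1 := mem_ball_zero_iff.2 (fm_lt he hv)
  have h3 : HasDerivAt G (deriv G (Fm e v)) (Fm e v) := (hT.dG.differentiableAt (isOpen_ball.mem_nhds hFb)).hasDerivAt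
  have h4 : HasDerivAt (Fm e) (deriv (Fm e) v) v := (fm_der he hv).differentiableAt.hasDerivAt
  have h5 : deriv (f^[k]) (Φ v) * deriv Φ v = deriv G (Fm e v) * deriv (Fm e) v := by
    have h6 : (f^[k] ∘ Φ) =ᶠ[𝓝 v] (G ∘ Fm e) := by
      filter_upwards [isOpen_ball.mem_nhds hvb] with u hu
      exact hT.eq u hu
    rw [← (h2.comp v h1).deriv, h6.deriv_eq, (h3.comp v h4).deriv]
  have h7 := uh_der isOpen_ball hT.dG hT.iG hFb
  intro h8
  rw [h8, zero_mul] at h5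
  exact mul_ne_zero h7 hne h5.symm

theorem cmp_pg (h : PG f U J P Cr δ η ρ) (hX : FG f U J E δ X hh μ b0) (ht0 : 0 ≤ t) (ht : t < 1) {𝒰 : Ultrafilter ℕ} {z : ℕ → ℂ} {k : ℕ → ℕ}
    {Φ G : ℕ → ℂ → ℂ} {e w0 : ℕ → ℂ} (hz : ∀ n, z n ∈ E) (hT : ∀ n, TP f U J δ t (z n) (k n) (Φ n) (G n) (e n) (w0 n))
    (hs : Tendsto (fun n => ‖deriv (Φ n) 0‖) (𝒰 : Filter ℕ) (𝓝 0)) :
    Cmp 𝒰 e (fun n u => (Φ n u - z n) / (‖deriv (Φ n) 0‖ : ℂ)) := by
  intro w r s τ τ0 φ hr hs1 hsub hus hτ hφ hτt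
  obtain ⟨σ, hσ⟩ : ∃ σ : ℕ → ℝ, σ = fun n => ‖deriv (Φ n) 0‖ := ⟨_, rfl⟩
  have hσ0 : ∀ n, 0 < σ n := fun n => by
    rw [hσ]
    exact norm_pos_iff.2 (uh_der isOpen_ball (hT n).dΦ (hT n).iΦ (mem_ball_self one_pos))
  have hσne : ∀ n, ((σ n : ℝ) : ℂ) ≠ 0 := fun n => Complex.ofReal_ne_zero.2 (hσ0 n).ne'
  have hσt : Tendsto σ (𝒰 : Filter ℕ) (𝓝 0) := by rw [hσ]; exact hs
  obtain ⟨g, hg⟩ : ∃ g : ℕ → ℂ → ℂ, g = fun n u => (Φ n u - z n) / (σ n : ℂ) := ⟨_, rfl⟩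
  have hφ' : TendstoLocallyUniformlyOn g φ (𝒰 : Filter ℕ) (ball 0 1) := by
    rw [hg, hσ]
    exact hφ
  have hgz : ∀ n u, z n + σ n * g n u = Φ n u := by
    intro n u
    rw [hg]
    show z n + σ n * ((Φ n u - z n) / (σ n : ℂ)) = Φ n u
    rw [mul_div_cancel₀ _ (hσne n)]
    ring
  have hgd : ∀ n, DifferentiableOn ℂ (g n) (ball 0 1) := by
    intro n
    rw [hg]
    exact ((hT n).dΦ.sub_const _).div_const _
  -- a bound on `closedBall 0 (max s t)`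
  obtain ⟨m, hm⟩ : ∃ m : ℝ, m = max s t := ⟨_, rfl⟩
  have hm1 : m < 1 := by rw [hm]; exact max_lt hs1 ht
  have hmt : t ≤ m := by rw [hm]; exact le_max_right _ _
  have hms : s ≤ m := by rw [hm]; exact le_max_left _ _
  have hgb : ∀ n u, ‖u‖ ≤ m → ‖g n u‖ ≤ 2 * K1 m + 1 := by
    intro n u hu
    have h1 := img_le (hT n).dΦ (hT n).iΦ (ht0.trans hmt) hm1 hu ((hT n).wt.trans hmt)
    rw [(hT n).wz] at h1
    have h2 : ‖g n u‖ ≤ 2 * K1 m := by
      rw [hg]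
      show ‖(Φ n u - z n) / (σ n : ℂ)‖ ≤ _
      rw [norm_div, Complex.norm_real, Real.norm_of_nonneg (hσ0 n).le, div_le_iff₀ (hσ0 n), hσ]
      exact h1
    linarith
  have hM : 0 < 2 * K1 m + 1 := by
    have := K1_pos m
    linarith
  have hτb : ∀ᶠ n in (𝒰 : Filter ℕ), MapsTo (τ n) (ball w r) (ball 0 1) := by
    filter_upwards [hτ] with n hn u hu
    exact mem_ball_zero_iff.2 ((hn.2 u hu).1.trans_lt hs1)
  -- the limit of `g n ∘ τ n`
  obtain ⟨ψ, ψd, ψt⟩ := um 𝒰 (S := ball w r) isOpen_ball (g := fun n => g n ∘ τ n) (by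
    filter_upwards [hτ, hτb] with n hn hn2
    exact (hgd n).comp hn.1 hn2) (fun u hu => by
    obtain ⟨ρ', hρ, hρs⟩ := Metric.isOpen_iff.1 isOpen_ball u hu
    refine ⟨ρ', 2 * K1 m + 1, hρ, hρs, ?_⟩
    filter_upwards [hτ] with n hn v hv
    exact hgb n _ ((hn.2 v (hρs hv)).1.trans hms))
  have φd : DifferentiableOn ℂ φ (ball 0 1) := hφ'.differentiableOn (Eventually.of_forall hgd) isOpen_ball
  have hτ0 : ∀ u ∈ ball w r, ‖τ0 u‖ ≤ s := by
    intro u hu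
    refine le_of_tendsto (hτt.tendsto_at hu).norm ?_
    filter_upwards [hτ] with n hn
    exact (hn.2 u hu).1
  have hψ : ∀ u ∈ ball w r, ψ u = φ (τ0 u) := by
    intro u hu
    have hmem : τ0 u ∈ ball (0 : ℂ) 1 := mem_ball_zero_iff.2 ((hτ0 u hu).trans_lt hs1)
    have h1 : Tendsto (fun n => g n (τ n u)) (𝒰 : Filter ℕ) (𝓝 (φ (τ0 u))) := by
      refine hφ'.tendsto_comp (φd.continuousOn (τ0 u) hmem) hmem (tendsto_nhdsWithin_iff.2 ⟨hτt.tendsto_at hu, ?_⟩)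
      filter_upwards [hτb] with n hn
      exact hn hu
    exact tendsto_nhds_unique (ψt.tendsto_at hu) h1
  have hgr : TendstoLocallyUniformlyOn g φ (𝒰 : Filter ℕ) (ball w r) := hφ'.mono hsub
  have hfin := Pool.Agent.H66.SP.gc h hX (𝒰 := 𝒰) (z := z) (k := k) (k' := k) (σ := σ) (σ' := σ) hz (Eventually.of_forall hσ0)
    (Eventually.of_forall hσ0) hσt hσt (w := w) (r := r) (M := 2 * K1 m + 1) (G := g) (G' := fun n => g n ∘ τ n) hr hM
    (by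
      filter_upwards [hτ, hτb] with n hn hn2
      refine ⟨(hgd n).mono hsub, (hgd n).comp hn.1 hn2, fun u hu => ⟨?_, hgb n u ((hus u hu).trans hms)⟩,
        fun u hu => ⟨?_, hgb n _ ((hn.2 u hu).1.trans hms)⟩, fun u hu => ?_, fun u hu => ?_⟩
      · rw [hgz]
        exact (hT n).mΦ u (hsub hu)
      · show z n + σ n * g n (τ n u) ∈ _
        rw [hgz]
        exact (hT n).mΦ _ (hn2 hu)
      · show f^[k n] (z n + σ n * g n u) = f^[k n] (z n + σ n * g n (τ n u))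
        rw [hgz, hgz, (hT n).eq u (hsub hu), (hT n).eq _ (hn2 hu), (hn.2 u hu).2.1]
      · show deriv (f^[k n]) (z n + σ n * g n (τ n u)) ≠ 0
        rw [hgz]
        exact it_ne h ht (hT n) ((hn.2 u hu).1.trans_lt hs1) (hn.2 u hu).2.2) hgr ψt
  intro u hu
  have h1 := hfin u hu
  have h2 : deriv (φ ∘ τ0) u = deriv ψ u := by
    refine Filter.EventuallyEq.deriv_eq ?_
    filter_upwards [isOpen_ball.mem_nhds hu] with v hv
    exact (hψ v hv).symm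
  rw [h2]
  exact h1

/-- the two pass pictures at the points of `E` are not small -/
theorem two_pg (h : PG f U J P Cr δ η ρ) (hX : FG f U J E δ X hh μ b0) (ht0 : 0 ≤ t) (ht : t < 1) :
    ∃ a : ℝ, 0 < a ∧ ∀ (z : ℂ) (k : ℕ) (Φ G : ℂ → ℂ) (e w0 : ℂ), z ∈ E → TP f U J δ t z k Φ G e w0 → a ≤ ‖deriv Φ 0‖ := by
  by_contra hcon
  push Not at hcon
  have h1 : ∀ n : ℕ, ∃ (z : ℂ) (k : ℕ) (Φ G : ℂ → ℂ) (e w0 : ℂ), z ∈ E ∧ TP f U J δ t z k Φ G e w0 ∧ ‖deriv Φ 0‖ < 1 / ((n : ℝ) + 1) := by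
    intro n
    exact hcon _ (by positivity)
  choose z k Φ G e w0 hz hT hd using h1
  obtain ⟨𝒰, h𝒰⟩ : ∃ 𝒰 : Ultrafilter ℕ, (𝒰 : Filter ℕ) ≤ atTop := ⟨Ultrafilter.of atTop, Ultrafilter.of_le _⟩
  have hs : Tendsto (fun n => ‖deriv (Φ n) 0‖) (𝒰 : Filter ℕ) (𝓝 0) := by
    refine (squeeze_zero (fun n => norm_nonneg _) (fun n => (hd n).le) ?_ : Tendsto _ atTop _).mono_left h𝒰
    exact tendsto_one_div_add_atTop_nhds_zero_nat
  have hσ0 : ∀ n, 0 < ‖deriv (Φ n) 0‖ := fun n =>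
    norm_pos_iff.2 (uh_der isOpen_ball (hT n).dΦ (hT n).iΦ (mem_ball_self one_pos))
  have hσne : ∀ n, ((‖deriv (Φ n) 0‖ : ℝ) : ℂ) ≠ 0 := fun n => Complex.ofReal_ne_zero.2 (hσ0 n).ne'
  obtain ⟨φ, ε, h2, h3, h4, h5⟩ := core 𝒰 ht0 ht (g := fun n u => (Φ n u - z n) / (‖deriv (Φ n) 0‖ : ℂ)) (e := e) (w0 := w0)
    (Eventually.of_forall fun n => ((hT n).dΦ.sub_const _).div_const _)
    (Eventually.of_forall fun n u hu u' hu' he => (hT n).iΦ hu hu' (sub_left_injective ((div_left_inj' (hσne n)).1 he)))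
    (Eventually.of_forall fun n => by
      show ‖deriv (fun u => (Φ n u - z n) / (‖deriv (Φ n) 0‖ : ℂ)) 0‖ = 1
      rw [deriv_div_const, deriv_sub_const, norm_div, Complex.norm_real, norm_norm, div_self (hσ0 n).ne'])
    (Eventually.of_forall fun n => (hT n).wt)
    (Eventually.of_forall fun n => by
      show (Φ n (w0 n) - z n) / (‖deriv (Φ n) 0‖ : ℂ) = 0
      rw [(hT n).wz, sub_self, zero_div])
    (Eventually.of_forall fun n => (hT n).et) (cmp_pg h hX ht0 ht hz hT hs)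
  exact law ht φ ε h2 h3 h4 h5

end Pool.Agent.H31.MMx
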