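import Pool.Agent.H47.MM.Defs
import Pool.Agent.H66.MM.Core

/-!
# THEOREM M, module Vis: the shallow pass lemma

`sh`: if the critical value `e` is outside `ball 0 t'` then `z ↦ Me (-e) z` has no zero on `ball 0 t'`: an `m`-th root `ρ` on `ball 0 t'` with `Me e (ρ z ^ m) = z`, `ρ u = w1`.
-/

set_option autoImplicit false

open Filter Topology Metric Set

namespace Pool.Agent.H31.MMx

open Pool.Agent.H47.MM (Me Un)
open Pool.Agent.H47.LW (mo mo_lt mo_inv mo_inv' mo_diff mo_ne)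
open Pool.Agent.H66.MM (root_free)

private theorem Me_mo (e w : ℂ) : Pool.Agent.H47.MM.Me e w = mo e w := rfl

theorem sh {t' : ℝ} (ht1 : t' < 1) {e u w1 : ℂ} {m : ℕ} (hm : m ≠ 0) (he1 : ‖e‖ < 1) (he : t' < ‖e‖) (hu : ‖u‖ < t')
    (hw1 : ‖w1‖ < 1) (h : Pool.Agent.H47.MM.Me e (w1 ^ m) = u) :
    ∃ ρ : ℂ → ℂ, DifferentiableOn ℂ ρ (ball 0 t') ∧ InjOn ρ (ball 0 t') ∧
      (∀ z ∈ ball (0 : ℂ) t', ρ z ∈ ball (0 : ℂ) 1 ∧ Pool.Agent.H47.MM.Me e (ρ z ^ m) = z) ∧ ρ u = w1 := by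
  have ht0 : 0 < t' := (norm_nonneg _).trans_lt hu
  have hne : ‖-e‖ < 1 := by rwa [norm_neg]
  have htc : (t' : ℂ) ≠ 0 := by exact_mod_cast ht0.ne'
  have hw1m : ‖w1 ^ m‖ < 1 := by
    rw [norm_pow]
    exact pow_lt_one₀ (norm_nonneg _) hw1 hm
  have hsc : ∀ x ∈ ball (0 : ℂ) 1, (t' : ℂ) * x ∈ ball (0 : ℂ) t' := by
    intro x hx
    rw [mem_ball_zero_iff] at hx ⊢
    rw [norm_mul, Complex.norm_real, Real.norm_of_nonneg ht0.le]
    nlinarith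
  have hlt : ∀ z ∈ ball (0 : ℂ) t', ‖z‖ < 1 := fun z hz => (mem_ball_zero_iff.1 hz).trans ht1
  have hd : DifferentiableOn ℂ (fun x => mo (-e) ((t' : ℂ) * x)) (ball 0 1) := by
    refine (mo_diff hne).comp ((differentiable_id.const_mul _).differentiableOn) fun x hx => ?_
    exact mem_ball_zero_iff.2 (hlt _ (hsc x hx))
  have hi : InjOn (fun x => mo (-e) ((t' : ℂ) * x)) (ball 0 1) := by
    intro x hx y hy hxy
    have h1 : mo e (mo (-e) ((t' : ℂ) * x)) = mo e (mo (-e) ((t' : ℂ) * y)) := by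
      have h2 : mo (-e) ((t' : ℂ) * x) = mo (-e) ((t' : ℂ) * y) := hxy
      rw [h2]
    rw [mo_inv' he1 (hlt _ (hsc x hx)), mo_inv' he1 (hlt _ (hsc y hy))] at h1
    exact mul_left_cancel₀ htc h1
  have h0 : ∀ x ∈ ball (0 : ℂ) 1, mo (-e) ((t' : ℂ) * x) ≠ 0 := by
    intro x hx h1
    have h2 := mo_inv' he1 (hlt _ (hsc x hx))
    rw [h1, Pool.Agent.H47.LW.mo_zero] at h2
    have h3 := mem_ball_zero_iff.1 (hsc x hx)
    rw [← h2] at h3
    linarith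
  have hu0 : u / (t' : ℂ) ∈ ball (0 : ℂ) 1 := by
    rw [mem_ball_zero_iff, norm_div, Complex.norm_real, Real.norm_of_nonneg ht0.le, div_lt_one ht0]
    exact hu
  have hw : w1 ^ m = (fun x => mo (-e) ((t' : ℂ) * x)) (u / (t' : ℂ)) := by
    show w1 ^ m = mo (-e) ((t' : ℂ) * (u / (t' : ℂ)))
    rw [mul_div_cancel₀ _ htc, ← h, Me_mo, mo_inv he1 hw1m]
  obtain ⟨H, H1, H2, H3, H4⟩ := root_free hd hi h0 (Nat.pos_of_ne_zero hm) hu0 hw
  have hdv : ∀ z ∈ ball (0 : ℂ) t', z / (t' : ℂ) ∈ ball (0 : ℂ) 1 := by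
    intro z hz
    rw [mem_ball_zero_iff, norm_div, Complex.norm_real, Real.norm_of_nonneg ht0.le, div_lt_one ht0]
    exact mem_ball_zero_iff.1 hz
  have hv : ∀ z ∈ ball (0 : ℂ) t', H (z / (t' : ℂ)) ^ m = mo (-e) z := by
    intro z hz
    rw [H3 _ (hdv z hz)]
    show mo (-e) ((t' : ℂ) * (z / (t' : ℂ))) = mo (-e) z
    rw [mul_div_cancel₀ _ htc]
  refine ⟨fun z => H (z / (t' : ℂ)), H1.comp ((differentiable_id.div_const _).differentiableOn) hdv, ?_, ?_, H4⟩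
  · intro x hx y hy hxy
    have h1 := H2 (hdv x hx) (hdv y hy) hxy
    exact (div_left_inj' htc).1 h1
  · intro z hz
    have h1 := hv z hz
    refine ⟨?_, ?_⟩
    · have h2 : ‖H (z / (t' : ℂ))‖ ^ m < 1 := by
        rw [← norm_pow, h1]
        exact mo_lt hne (hlt z hz)
      rw [mem_ball_zero_iff]
      by_contra h3
      exact absurd h2 (not_lt.2 (one_le_pow₀ (not_lt.1 h3)))
    · show Pool.Agent.H47.MM.Me e (H (z / (t' : ℂ)) ^ m) = z
      rw [h1, Me_mo, mo_inv' he1 (hlt z hz)]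

end Pool.Agent.H31.MMx
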